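import Pool.Agent.helper14.SCO.Spec

set_option autoImplicit false

namespace Pool.Agent.SCO

open Pool.Agent.Scheepers

theorem DCT : DCT_stmt := by
  let Φ : Finset (ℕ × ℕ) × ℕ × Finset ℕ → (ℕ → Bool) :=
    fun q e => if e < q.2.1 then decide (e ∈ q.2.2) else dlt q.1 e
  refine (Set.countable_range Φ).mono ?_
  rintro z ⟨t, l, hz⟩
  refine ⟨(t, l, (Finset.range l).filter fun e => z e = true), ?_⟩
  funext e
  by_cases he : e < l
  · have h1 : Φ (t, l, (Finset.range l).filter fun e => z e = true) e =
        decide (e ∈ (Finset.range l).filter fun e => z e = true) := if_pos he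
    rw [h1]
    cases hb : z e with
    | true =>
      rw [decide_eq_true_iff, Finset.mem_filter, Finset.mem_range]
      exact ⟨he, hb⟩
    | false =>
      rw [decide_eq_false_iff_not, Finset.mem_filter]
      rintro ⟨-, h2⟩
      rw [hb] at h2
      exact Bool.false_ne_true h2
  · have h1 : Φ (t, l, (Finset.range l).filter fun e => z e = true) e = dlt t e := if_neg he
    rw [h1, hz e (not_lt.1 he)]

end Pool.Agent.SCO
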