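import Pool.Agent.helper14.SCO.Spec

set_option autoImplicit false

namespace Pool.Agent.SCO

open Pool.Agent.Scheepers Cardinal

private theorem TCD_pow {A : Type} (h : #A ≤ 𝔠) : #(ℕ → A) ≤ 𝔠 := by
  rw [← Cardinal.power_def, Cardinal.mk_nat]
  calc #A ^ ℵ₀ ≤ 𝔠 ^ ℵ₀ := Cardinal.power_le_power_right h
    _ = 𝔠 := Cardinal.continuum_power_aleph0

private theorem TCD_prod {A B : Type} (h1 : #A ≤ 𝔠) (h2 : #B ≤ 𝔠) : #(A × B) ≤ 𝔠 := by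
  rw [Cardinal.mk_prod, Cardinal.lift_id, Cardinal.lift_id]
  calc #A * #B ≤ 𝔠 * 𝔠 := mul_le_mul' h1 h2
    _ = 𝔠 := Cardinal.continuum_mul_self

theorem TCD : TCD_stmt := by
  have h1 : #Code ≤ 𝔠 := Cardinal.mk_le_aleph0.trans Cardinal.aleph0_le_continuum
  have h2 : #ℕ ≤ 𝔠 := Cardinal.mk_le_aleph0.trans Cardinal.aleph0_le_continuum
  exact TCD_prod (TCD_pow (TCD_pow h1)) (TCD_prod (TCD_pow h2) (TCD_pow (TCD_pow (TCD_pow h1))))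

end Pool.Agent.SCO
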